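import Mathlib

/-!
# The profile function of the neck, one variable (helper74, MP_62da59_gt, module PROF)
-/

noncomputable section

open scoped ContDiff Topology
open Set

namespace Pool.Agent.RLim.H74

/-! ## the function `Θ(u) = u e^{-1/u}` and its derivatives -/

def Th (u : ℝ) : ℝ := u * expNegInvGlue u
def t1 (u : ℝ) : ℝ := (1 + u⁻¹) * expNegInvGlue u
def t2 (u : ℝ) : ℝ := (u⁻¹) ^ 3 * expNegInvGlue u
def t3 (u : ℝ) : ℝ := ((u⁻¹) ^ 5 - 3 * (u⁻¹) ^ 4) * expNegInvGlue u

theorem eN_pos {u : ℝ} (hu : 0 < u) : expNegInvGlue u = Real.exp (-u⁻¹) := by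
  unfold expNegInvGlue
  rw [if_neg (not_le.2 hu)]

theorem hasDerivAt_Th (u : ℝ) : HasDerivAt Th (t1 u) u := by
  have h := expNegInvGlue.hasDerivAt_polynomial_eval_inv_mul (1 : Polynomial ℝ) u
  simp only [Polynomial.eval_one, one_mul, Polynomial.derivative_one, sub_zero, mul_one,
    Polynomial.eval_pow, Polynomial.eval_X] at h
  have h2 := (hasDerivAt_id u).mul h
  refine h2.congr_deriv ?_
  unfold t1
  by_cases hu : u = 0
  · subst hu; simp
  · simp only [id]
    field_simp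

theorem hasDerivAt_t1 (u : ℝ) : HasDerivAt t1 (t2 u) u := by
  have h := expNegInvGlue.hasDerivAt_polynomial_eval_inv_mul (1 + Polynomial.X : Polynomial ℝ) u
  simp only [Polynomial.eval_add, Polynomial.eval_one, Polynomial.eval_X, Polynomial.derivative_add,
    Polynomial.derivative_one, Polynomial.derivative_X, Polynomial.eval_mul, Polynomial.eval_pow,
    Polynomial.eval_sub, zero_add] at h
  refine h.congr_deriv ?_
  unfold t2
  ring

theorem hasDerivAt_t2 (u : ℝ) : HasDerivAt t2 (t3 u) u := by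
  have h := expNegInvGlue.hasDerivAt_polynomial_eval_inv_mul (Polynomial.X ^ 3 : Polynomial ℝ) u
  simp only [Polynomial.eval_X, Polynomial.derivative_X_pow, Polynomial.eval_mul,
    Polynomial.eval_pow, Polynomial.eval_sub, Polynomial.eval_C] at h
  refine h.congr_deriv ?_
  unfold t3
  rw [show (3 - 1 : ℕ) = 2 from rfl]
  push_cast
  ring

theorem Th_nonneg (u : ℝ) : 0 ≤ Th u := by
  unfold Th
  rcases le_or_gt u 0 with h | h
  · rw [expNegInvGlue.zero_of_nonpos h]; simp
  · exact mul_nonneg h.le (expNegInvGlue.nonneg u)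

theorem Th_zero {u : ℝ} (h : u ≤ 0) : Th u = 0 := by
  unfold Th; rw [expNegInvGlue.zero_of_nonpos h]; simp

theorem t1_zero {u : ℝ} (h : u ≤ 0) : t1 u = 0 := by
  unfold t1; rw [expNegInvGlue.zero_of_nonpos h]; simp

theorem Th_ge {u : ℝ} (h : 0 < u) : u - 1 ≤ Th u := by
  unfold Th
  rw [eN_pos h]
  have h1 := Real.add_one_le_exp (-u⁻¹)
  have h2 : u * (-u⁻¹ + 1) ≤ u * Real.exp (-u⁻¹) := mul_le_mul_of_nonneg_left h1 h.le
  have h3 : u * (-u⁻¹ + 1) = u - 1 := by field_simp; ring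
  linarith

theorem t_bounds (u : ℝ) : (0 ≤ t1 u ∧ t1 u ≤ 1) ∧ (0 ≤ t2 u ∧ t2 u ≤ 6) ∧ |t3 u| ≤ 192 ∧
    -(243 * t1 u) ≤ t3 u := by
  unfold t1 t2 t3
  rcases le_or_gt u 0 with h | h
  · rw [expNegInvGlue.zero_of_nonpos h]; simp
  · rw [eN_pos h]
    have ht : 0 < u⁻¹ := inv_pos.2 h
    set t := u⁻¹ with htdef
    have he : 0 < Real.exp (-t) := Real.exp_pos _
    have hee : Real.exp (-t) * Real.exp t = 1 := by rw [← Real.exp_add]; simp
    have hpow : ∀ n : ℕ, t ^ n * Real.exp (-t) ≤ n.factorial := by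
      intro n
      have h1 := Real.pow_div_factorial_le_exp t ht.le n
      rw [div_le_iff₀ (by positivity)] at h1
      have h2 : t ^ n * Real.exp (-t) ≤ Real.exp t * n.factorial * Real.exp (-t) :=
        mul_le_mul_of_nonneg_right h1 he.le
      calc t ^ n * Real.exp (-t) ≤ Real.exp t * n.factorial * Real.exp (-t) := h2
        _ = n.factorial * (Real.exp (-t) * Real.exp t) := by ring
        _ = n.factorial := by rw [hee, mul_one]
    refine ⟨⟨by positivity, ?_⟩, ⟨by positivity, ?_⟩, ?_, ?_⟩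
    · have h1 := Real.add_one_le_exp t
      have h2 : (t + 1) * Real.exp (-t) ≤ Real.exp t * Real.exp (-t) :=
        mul_le_mul_of_nonneg_right h1 he.le
      nlinarith
    · have := hpow 3
      norm_num [Nat.factorial] at this
      exact this
    · have h5 := hpow 5
      have h4 := hpow 4
      norm_num [Nat.factorial] at h5 h4
      have h5' : 0 ≤ t ^ 5 * Real.exp (-t) := by positivity
      have h4' : 0 ≤ t ^ 4 * Real.exp (-t) := by positivity
      rw [abs_le]
      constructor <;> nlinarith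
    · have h6 : -(243 * (1 + t)) ≤ t ^ 5 - 3 * t ^ 4 := by
        rcases le_or_gt 3 t with h3 | h3
        · have : 0 ≤ t ^ 4 * (t - 3) := mul_nonneg (by positivity) (by linarith)
          nlinarith
        · have h7 : t ^ 2 < 9 := by nlinarith
          have h8 : t ^ 4 ≤ 81 := by nlinarith [sq_nonneg t]
          have h9 : 0 ≤ t ^ 5 := by positivity
          nlinarith
      nlinarith

theorem contDiff_Th : ContDiff ℝ ∞ Th :=
  contDiff_id.mul expNegInvGlue.contDiff

/-! ## the logistic function -/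

/-- `-log F₀` with `F₀ = 1/(1 + C e^{-Θ})` -/
def el (C u : ℝ) : ℝ := -Real.log (1 + C * Real.exp (-Th u))
/-- `1 - F₀` -/
def ww (C u : ℝ) : ℝ := 1 - (1 + C * Real.exp (-Th u))⁻¹
def g1 (C u : ℝ) : ℝ := t1 u * ww C u
def g2 (C u : ℝ) : ℝ := ww C u * (t2 u - t1 u ^ 2 * (1 - ww C u))
def g3 (C u : ℝ) : ℝ := ww C u * (t3 u - 3 * t1 u * t2 u * (1 - ww C u)
  + t1 u ^ 3 * (1 - ww C u) * (1 - 2 * ww C u))

section
variable {C : ℝ} (hC : 0 < C)
include hC

theorem base_pos (u : ℝ) : 0 < 1 + C * Real.exp (-Th u) := by positivity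

theorem hasDerivAt_el (u : ℝ) : HasDerivAt (el C) (g1 C u) u := by
  have hb := base_pos hC u
  have h1 : HasDerivAt (fun u => 1 + C * Real.exp (-Th u))
      (C * (Real.exp (-Th u) * (-t1 u))) u := by
    simpa using ((hasDerivAt_Th u).neg.exp.const_mul C).const_add 1
  have h2 := (h1.log hb.ne').neg
  refine h2.congr_deriv ?_
  unfold g1 ww
  field_simp
  ring

theorem hasDerivAt_ww (u : ℝ) : HasDerivAt (ww C) (-(1 - ww C u) * t1 u * ww C u) u := by
  have hb := base_pos hC u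
  have h1 : HasDerivAt (fun u => 1 + C * Real.exp (-Th u))
      (C * (Real.exp (-Th u) * (-t1 u))) u := by
    simpa using ((hasDerivAt_Th u).neg.exp.const_mul C).const_add 1
  have h2 := (h1.inv hb.ne').const_sub 1
  refine h2.congr_deriv ?_
  unfold ww
  field_simp
  ring

theorem hasDerivAt_g1 (u : ℝ) : HasDerivAt (g1 C) (g2 C u) u := by
  refine ((hasDerivAt_t1 u).mul (hasDerivAt_ww hC u)).congr_deriv ?_
  unfold g2
  ring

theorem hasDerivAt_g2 (u : ℝ) : HasDerivAt (g2 C) (g3 C u) u := by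
  have hw := hasDerivAt_ww hC u
  have h1 := (hasDerivAt_t2 u).sub (((hasDerivAt_t1 u).pow 2).mul (hw.const_sub 1))
  refine (hw.mul h1).congr_deriv ?_
  unfold g3
  simp only [Pi.sub_apply, Pi.mul_apply, Pi.pow_apply]
  push_cast
  ring

theorem contDiff_el : ContDiff ℝ ∞ (el C) := by
  have h : ContDiff ℝ ∞ (fun u => 1 + C * Real.exp (-Th u)) :=
    contDiff_const.add (contDiff_const.mul contDiff_Th.neg.exp)
  exact (h.log fun u => (base_pos hC u).ne').neg

theorem ww_pos (u : ℝ) : 0 < ww C u := by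
  unfold ww
  have h : 0 < C * Real.exp (-Th u) := by positivity
  have : (1 + C * Real.exp (-Th u))⁻¹ < 1 := inv_lt_one_of_one_lt₀ (by linarith)
  linarith

theorem ww_lt (u : ℝ) : ww C u < 1 := by
  unfold ww
  have := inv_pos.2 (base_pos hC u)
  linarith

theorem exp_el (u : ℝ) : Real.exp (el C u) = 1 - ww C u := by
  unfold el ww
  rw [Real.exp_neg, Real.exp_log (base_pos hC u)]
  ring

theorem ww_le_el (u : ℝ) : ww C u ≤ -el C u := by
  have h := Real.add_one_le_exp (el C u)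
  rw [exp_el hC] at h
  linarith

theorem el_le (u : ℝ) : -el C u ≤ C * Real.exp (-Th u) := by
  unfold el
  have h := Real.log_le_sub_one_of_pos (base_pos hC u)
  linarith

theorem el_ge (u : ℝ) : -Real.log (1 + C) ≤ el C u := by
  unfold el
  rw [neg_le_neg_iff]
  apply Real.log_le_log (base_pos hC u)
  have : Real.exp (-Th u) ≤ 1 := by
    rw [Real.exp_le_one_iff]; linarith [Th_nonneg u]
  nlinarith

omit hC in
theorem el_zero {u : ℝ} (h : u ≤ 0) : el C u = -Real.log (1 + C) := by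
  unfold el; rw [Th_zero h]; simp

theorem g_bounds (u : ℝ) : 0 ≤ g1 C u ∧ g1 C u ≤ ww C u ∧ |g2 C u| ≤ 7 * ww C u ∧
    |g3 C u| ≤ 211 * ww C u ∧ -g1 C u ≤ g2 C u ∧ -(262 * g1 C u) ≤ g3 C u := by
  obtain ⟨⟨a1, a2⟩, ⟨b1, b2⟩, c1, c2⟩ := t_bounds u
  have w0 := ww_pos hC u
  have w1 := ww_lt hC u
  unfold g1 g2 g3
  set a := t1 u
  set b := t2 u
  set c := t3 u
  set w := ww C u
  have e1 : 0 ≤ a ^ 2 * (1 - w) := mul_nonneg (sq_nonneg _) (by linarith)
  have e2 : a ^ 2 * (1 - w) ≤ a := by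
    have : a ^ 2 ≤ a := by nlinarith
    nlinarith
  have e3 : 0 ≤ 3 * a * b * (1 - w) := by
    have : 0 ≤ a * b := mul_nonneg a1 b1
    nlinarith
  have e4 : 3 * a * b * (1 - w) ≤ 18 * a := by
    have h1 : a * b ≤ a * 6 := mul_le_mul_of_nonneg_left b2 a1
    have h2 : 0 ≤ a * b := mul_nonneg a1 b1
    nlinarith
  have e5 : |a ^ 3 * (1 - w) * (1 - 2 * w)| ≤ a := by
    rw [abs_mul, abs_of_nonneg (mul_nonneg (pow_nonneg a1 3) (by linarith))]
    have h1 : |1 - 2 * w| ≤ 1 := by rw [abs_le]; constructor <;> linarith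
    have h2 : a ^ 3 * (1 - w) ≤ a := by
      have h3 : a ^ 3 ≤ a := by nlinarith [mul_nonneg a1 a1, sq_nonneg a]
      have h4 : 0 ≤ a ^ 3 := pow_nonneg a1 3
      nlinarith
    have h5 : 0 ≤ a ^ 3 * (1 - w) := mul_nonneg (pow_nonneg a1 3) (by linarith)
    calc a ^ 3 * (1 - w) * |1 - 2 * w| ≤ a ^ 3 * (1 - w) * 1 :=
          mul_le_mul_of_nonneg_left h1 h5
      _ ≤ a := by linarith
  rw [abs_le] at e5
  rw [abs_le] at c1
  refine ⟨by positivity, by nlinarith, ?_, ?_, by nlinarith, ?_⟩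
  · rw [abs_mul, abs_of_pos w0]
    have : |b - a ^ 2 * (1 - w)| ≤ 7 := by rw [abs_le]; constructor <;> linarith
    nlinarith
  · rw [abs_mul, abs_of_pos w0]
    have : |c - 3 * a * b * (1 - w) + a ^ 3 * (1 - w) * (1 - 2 * w)| ≤ 211 := by
      rw [abs_le]; constructor <;> linarith
    nlinarith
  · have : -(262 * a) ≤ c - 3 * a * b * (1 - w) + a ^ 3 * (1 - w) * (1 - 2 * w) := by linarith
    nlinarith

/-- `E(u) = -el` tends to `0` -/
theorem el_small {ε : ℝ} (hε : 0 < ε) : ∃ u0 : ℝ, 1 ≤ u0 ∧ ∀ u, u0 ≤ u → -el C u ≤ ε := by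
  refine ⟨max 1 (1 + Real.log (C / ε)), le_max_left _ _, fun u hu => ?_⟩
  have h1 : 1 ≤ u := (le_max_left _ _).trans hu
  have h2 : 1 + Real.log (C / ε) ≤ u := (le_max_right _ _).trans hu
  have h3 := Th_ge (u := u) (by linarith)
  have h4 : Real.exp (-Th u) ≤ ε / C := by
    have : -Th u ≤ Real.log (ε / C) := by
      have : Real.log (ε / C) = -Real.log (C / ε) := by
        rw [← Real.log_inv, inv_div]
      rw [this]; linarith
    calc Real.exp (-Th u) ≤ Real.exp (Real.log (ε / C)) := Real.exp_le_exp.2 this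
      _ = ε / C := Real.exp_log (by positivity)
  calc -el C u ≤ C * Real.exp (-Th u) := el_le hC u
    _ ≤ C * (ε / C) := mul_le_mul_of_nonneg_left h4 hC.le
    _ = ε := by field_simp

end

/-! ## the cutoff -/

theorem cut_exists : ∃ (M : ℝ) (s1 s2 s3 : ℝ → ℝ), 0 ≤ M ∧
    (∀ v, HasDerivAt Real.smoothTransition (s1 v) v) ∧ (∀ v, HasDerivAt s1 (s2 v) v) ∧
    (∀ v, HasDerivAt s2 (s3 v) v) ∧ (∀ v, |s1 v| ≤ M ∧ |s2 v| ≤ M ∧ |s3 v| ≤ M) ∧
    (∀ v, 0 ≤ s1 v) ∧ (∀ v, v < 0 → s1 v = 0 ∧ s2 v = 0 ∧ s3 v = 0) ∧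
    ∀ v, 1 ≤ v → s1 v = 0 := by
  have hs : ContDiff ℝ ∞ Real.smoothTransition := Real.smoothTransition.contDiff
  have h1 : ContDiff ℝ ∞ (deriv Real.smoothTransition) := (contDiff_infty_iff_deriv.1 hs).2
  have h2 : ContDiff ℝ ∞ (deriv (deriv Real.smoothTransition)) := (contDiff_infty_iff_deriv.1 h1).2
  have h3 : ContDiff ℝ ∞ (deriv (deriv (deriv Real.smoothTransition))) :=
    (contDiff_infty_iff_deriv.1 h2).2
  have hd := fun v => ((contDiff_infty_iff_deriv.1 hs).1 v).hasDerivAt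
  have hneg : ∀ v, v < 0 → Real.smoothTransition =ᶠ[𝓝 v] fun _ => 0 := fun v hv => by
    filter_upwards [Iio_mem_nhds hv] with w hw
    exact Real.smoothTransition.zero_of_nonpos (le_of_lt hw)
  have hc1 : HasCompactSupport (deriv Real.smoothTransition) := by
    refine HasCompactSupport.intro (K := Icc 0 1) isCompact_Icc fun v hv => ?_
    rcases lt_or_ge v 0 with h | h
    · rw [(hneg v h).deriv_eq]; simp
    · have hv1 : 1 < v := by
        by_contra hh; exact hv ⟨h, not_lt.1 hh⟩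
      have : Real.smoothTransition =ᶠ[𝓝 v] fun _ => 1 := by
        filter_upwards [Ioi_mem_nhds hv1] with w hw
        exact Real.smoothTransition.one_of_one_le (le_of_lt hw)
      rw [this.deriv_eq]; simp
  have hc2 := hc1.deriv
  have hc3 := hc2.deriv
  obtain ⟨M1, hM1⟩ := hc1.exists_bound_of_continuous h1.continuous
  obtain ⟨M2, hM2⟩ := hc2.exists_bound_of_continuous h2.continuous
  obtain ⟨M3, hM3⟩ := hc3.exists_bound_of_continuous h3.continuous
  refine ⟨max M1 (max M2 M3), deriv Real.smoothTransition, deriv (deriv Real.smoothTransition),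
    deriv (deriv (deriv Real.smoothTransition)), ?_, hd,
    fun v => ((contDiff_infty_iff_deriv.1 h1).1 v).hasDerivAt,
    fun v => ((contDiff_infty_iff_deriv.1 h2).1 v).hasDerivAt, fun v => ⟨?_, ?_, ?_⟩,
    fun v => ?_, fun v hv => ?_, fun v hv => ?_⟩
  · exact ((norm_nonneg _).trans (hM1 0)).trans (le_max_left _ _)
  · exact (hM1 v).trans (le_max_left _ _)
  · exact (hM2 v).trans ((le_max_left _ _).trans (le_max_right _ _))
  · exact (hM3 v).trans ((le_max_right _ _).trans (le_max_right _ _))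
  · exact Real.smoothTransition.monotone.deriv_nonneg
  · have e1 := (hneg v hv).deriv
    have e2 := e1.deriv
    have e3 := e2.deriv
    refine ⟨?_, ?_, ?_⟩
    · rw [e1.eq_of_nhds]; simp
    · rw [e2.eq_of_nhds]; simp
    · rw [e3.eq_of_nhds]; simp
  · refine IsLocalMax.deriv_eq_zero (Filter.Eventually.of_forall fun w => ?_)
    rw [Real.smoothTransition.one_of_one_le hv]
    exact Real.smoothTransition.le_one w

end Pool.Agent.RLim.H74
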