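import Pool.Agent.Helper1_RL.Stmts
import Pool.Agent.Helper74_RLA.Prof1

/-!
# The profiles of the neck (helper74, MP_62da59_gt, module PROF)
-/

noncomputable section

open scoped ContDiff Topology
open Set

namespace Pool.Agent.RLim.H74

/-- the data of the construction -/
structure PD where
  κ : ℝ
  η : ℝ
  T : ℝ
  u1 : ℝ
  M : ℝ
  s1 : ℝ → ℝ
  s2 : ℝ → ℝ
  s3 : ℝ → ℝ
  κ0 : 0 < κ
  κ1 : κ < 1
  η0 : 0 < η
  η1 : η < 1
  T_eq : T = 10 ^ 10
  M0 : 0 ≤ M
  u1_ge : 1 ≤ u1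
  hs : ∀ v, HasDerivAt Real.smoothTransition (s1 v) v
  hs1 : ∀ v, HasDerivAt s1 (s2 v) v
  hs2 : ∀ v, HasDerivAt s2 (s3 v) v
  bd : ∀ v, |s1 v| ≤ M ∧ |s2 v| ≤ M ∧ |s3 v| ≤ M
  s1_nonneg : ∀ v, 0 ≤ s1 v
  s_zero : ∀ v, v < 0 → s1 v = 0 ∧ s2 v = 0 ∧ s3 v = 0
  s1_zero : ∀ v, 1 ≤ v → s1 v = 0
  small : ∀ u, u1 ≤ u → -el (1 / κ - 1) u ≤ η / (10 ^ 12 * (62 * M + 211))

namespace PD

variable (D : PD)

def C : ℝ := 1 / D.κ - 1
def lam : ℝ := Real.log 3 + D.T * D.u1 + Real.log 2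
def L : ℝ := 48 * Real.exp (D.T * D.u1)
def U (x : ℝ) : ℝ := (x - Real.log 3) / D.T
def V (x : ℝ) : ℝ := (x - D.lam) / Real.log 2

def G (x : ℝ) : ℝ := (1 - Real.smoothTransition (D.V x)) * el D.C (D.U x)
def G1 (x : ℝ) : ℝ := -(D.s1 (D.V x) / Real.log 2) * el D.C (D.U x) +
  (1 - Real.smoothTransition (D.V x)) * (g1 D.C (D.U x) / D.T)
def G2 (x : ℝ) : ℝ := -(D.s2 (D.V x) / Real.log 2 ^ 2) * el D.C (D.U x) -
  2 * (D.s1 (D.V x) / Real.log 2) * (g1 D.C (D.U x) / D.T) +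
  (1 - Real.smoothTransition (D.V x)) * (g2 D.C (D.U x) / D.T ^ 2)
def G3 (x : ℝ) : ℝ := -(D.s3 (D.V x) / Real.log 2 ^ 3) * el D.C (D.U x) -
  3 * (D.s2 (D.V x) / Real.log 2 ^ 2) * (g1 D.C (D.U x) / D.T) -
  3 * (D.s1 (D.V x) / Real.log 2) * (g2 D.C (D.U x) / D.T ^ 2) +
  (1 - Real.smoothTransition (D.V x)) * (g3 D.C (D.U x) / D.T ^ 3)

theorem C_pos : 0 < D.C := by
  unfold C
  have : 1 < 1 / D.κ := by rw [lt_div_iff₀ D.κ0]; linarith [D.κ1]
  linarith

theorem one_add_C : 1 + D.C = D.κ⁻¹ := by unfold C; rw [one_div]; ring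

theorem T_pos : 0 < D.T := by rw [D.T_eq]; positivity

theorem log2_bounds : 1 / 2 < Real.log 2 ∧ Real.log 2 < 1 := by
  constructor
  · have := Real.log_two_gt_d9; linarith
  · have := Real.log_two_lt_d9; linarith

theorem L_pos : 0 < D.L := by unfold L; positivity

theorem L_ge : 64 ≤ D.L := by
  unfold L
  have h1 := Real.add_one_le_exp (D.T * D.u1)
  have h2 : 1 ≤ D.T * D.u1 := by rw [D.T_eq]; nlinarith [D.u1_ge]
  linarith

theorem log_L : Real.log D.L = D.lam + 3 * Real.log 2 := by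
  unfold L lam
  rw [Real.log_mul (by norm_num) (Real.exp_pos _).ne', Real.log_exp,
    show (48:ℝ) = 3 * 2 ^ 4 by norm_num, Real.log_mul (by norm_num) (by norm_num), Real.log_pow]
  push_cast
  ring

theorem hasDerivAt_U (x : ℝ) : HasDerivAt D.U (1 / D.T) x := by
  unfold U
  exact ((hasDerivAt_id x).sub_const _).div_const _

theorem hasDerivAt_V (x : ℝ) : HasDerivAt D.V (1 / Real.log 2) x := by
  unfold V
  exact ((hasDerivAt_id x).sub_const _).div_const _

theorem hasDerivAt_G (x : ℝ) : HasDerivAt D.G (D.G1 x) x := by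
  have hC := D.C_pos
  have hv := (D.hs (D.V x)).comp x (D.hasDerivAt_V x)
  have he := (hasDerivAt_el hC (D.U x)).comp x (D.hasDerivAt_U x)
  refine ((hv.const_sub 1).mul he).congr_deriv ?_
  unfold G1
  simp only [Function.comp_apply]
  ring

theorem hasDerivAt_G1 (x : ℝ) : HasDerivAt D.G1 (D.G2 x) x := by
  have hC := D.C_pos
  have hv := (D.hs (D.V x)).comp x (D.hasDerivAt_V x)
  have hv1 := (D.hs1 (D.V x)).comp x (D.hasDerivAt_V x)
  have he := (hasDerivAt_el hC (D.U x)).comp x (D.hasDerivAt_U x)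
  have he1 := (hasDerivAt_g1 hC (D.U x)).comp x (D.hasDerivAt_U x)
  refine (((hv1.div_const (Real.log 2)).neg.mul he).add
    ((hv.const_sub 1).mul (he1.div_const D.T))).congr_deriv ?_
  unfold G2
  simp only [Function.comp_apply, Pi.neg_apply]
  ring

theorem hasDerivAt_G2 (x : ℝ) : HasDerivAt D.G2 (D.G3 x) x := by
  have hC := D.C_pos
  have hv := (D.hs (D.V x)).comp x (D.hasDerivAt_V x)
  have hv1 := (D.hs1 (D.V x)).comp x (D.hasDerivAt_V x)
  have hv2 := (D.hs2 (D.V x)).comp x (D.hasDerivAt_V x)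
  have he := (hasDerivAt_el hC (D.U x)).comp x (D.hasDerivAt_U x)
  have he1 := (hasDerivAt_g1 hC (D.U x)).comp x (D.hasDerivAt_U x)
  have he2 := (hasDerivAt_g2 hC (D.U x)).comp x (D.hasDerivAt_U x)
  refine ((((hv2.div_const (Real.log 2 ^ 2)).neg.mul he).sub
    (((hv1.div_const (Real.log 2)).const_mul 2).mul (he1.div_const D.T))).add
    ((hv.const_sub 1).mul (he2.div_const (D.T ^ 2)))).congr_deriv ?_
  unfold G3
  simp only [Function.comp_apply, Pi.neg_apply]
  ring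

theorem contDiff_G : ContDiff ℝ ∞ D.G := by
  have h1 : ContDiff ℝ ∞ D.U := (contDiff_id.sub contDiff_const).div_const _
  have h2 : ContDiff ℝ ∞ D.V := (contDiff_id.sub contDiff_const).div_const _
  exact (contDiff_const.sub (Real.smoothTransition.contDiff.comp h2)).mul
    ((contDiff_el D.C_pos).comp h1)

theorem contDiff_G1 : ContDiff ℝ ∞ D.G1 := by
  have h := (contDiff_infty_iff_deriv.1 D.contDiff_G).2
  have : deriv D.G = D.G1 := funext fun x => (D.hasDerivAt_G x).deriv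
  rwa [this] at h

theorem el_nonpos (u : ℝ) : el D.C u ≤ 0 := by
  have h1 := ww_le_el D.C_pos u
  have h2 := ww_pos D.C_pos u
  linarith

theorem G_nonpos (x : ℝ) : D.G x ≤ 0 := by
  unfold G
  exact mul_nonpos_of_nonneg_of_nonpos (by linarith [Real.smoothTransition.le_one (D.V x)])
    (D.el_nonpos _)

theorem el_ge' (u : ℝ) : Real.log D.κ ≤ el D.C u := by
  have h := el_ge D.C_pos u
  rw [D.one_add_C, Real.log_inv, neg_neg] at h
  exact h

theorem G_ge (x : ℝ) : Real.log D.κ ≤ D.G x := by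
  unfold G
  have h1 := D.el_ge' (D.U x)
  have h2 := D.el_nonpos (D.U x)
  have h3 := Real.smoothTransition.nonneg (D.V x)
  nlinarith

theorem G1_nonneg (x : ℝ) : 0 ≤ D.G1 x := by
  unfold G1
  obtain ⟨l0, _⟩ := log2_bounds
  have h2 := D.el_nonpos (D.U x)
  have h3 := D.s1_nonneg (D.V x)
  have h4 := (g_bounds D.C_pos (D.U x)).1
  have h5 := Real.smoothTransition.le_one (D.V x)
  have hT := D.T_pos
  have h6 : 0 ≤ D.s1 (D.V x) / Real.log 2 := div_nonneg h3 (by linarith)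
  have h7 : 0 ≤ g1 D.C (D.U x) / D.T := div_nonneg h4 hT.le
  nlinarith

/-- the region where the cutoff is `1` -/
theorem caseA {x : ℝ} (hx : x < D.lam) : D.G x = el D.C (D.U x) ∧
    D.G1 x = g1 D.C (D.U x) / D.T ∧ D.G2 x = g2 D.C (D.U x) / D.T ^ 2 ∧
    D.G3 x = g3 D.C (D.U x) / D.T ^ 3 := by
  have hV : D.V x < 0 := by
    unfold V
    exact div_neg_of_neg_of_pos (by linarith) (by linarith [log2_bounds.1])
  obtain ⟨a, b, c⟩ := D.s_zero _ hV
  have d := Real.smoothTransition.zero_of_nonpos hV.le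
  unfold G G1 G2 G3
  rw [a, b, c, d]
  refine ⟨by ring, by ring, by ring, by ring⟩

/-- the region of the cutoff -/
theorem caseB {x : ℝ} (hx : D.lam - Real.log 2 ≤ x) : |D.G1 x| ≤ D.η / 10 ^ 12 ∧
    |D.G2 x| ≤ D.η / 10 ^ 12 ∧ |D.G3 x| ≤ D.η / 10 ^ 12 := by
  have hT := D.T_pos
  have hT1 : 1 ≤ D.T := by rw [D.T_eq]; norm_num
  have hU : D.u1 ≤ D.U x := by
    unfold U
    rw [le_div_iff₀ hT]
    unfold lam at hx
    linarith
  have hE := D.small _ hU
  have hC := D.C_pos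
  obtain ⟨a1, a2, a3, a4, -, -⟩ := g_bounds hC (D.U x)
  have w0 := ww_pos hC (D.U x)
  have w1 := ww_le_el hC (D.U x)
  obtain ⟨b1, b2, b3⟩ := D.bd (D.V x)
  have c0 := Real.smoothTransition.nonneg (D.V x)
  have c1 := Real.smoothTransition.le_one (D.V x)
  obtain ⟨l0, l1⟩ := log2_bounds
  change -el D.C (D.U x) ≤ _ at hE
  unfold G1 G2 G3
  set E := el D.C (D.U x)
  set w := ww D.C (D.U x)
  set y1 := g1 D.C (D.U x)
  set y2 := g2 D.C (D.U x)
  set y3 := g3 D.C (D.U x)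
  set l := Real.log 2
  set χ := Real.smoothTransition (D.V x)
  have hM := D.M0
  have E0 : 0 ≤ -E := by linarith
  have hl : 0 < l := by linarith
  -- bounds of the factors
  have il : 1 / l ≤ 2 := by rw [div_le_iff₀ hl]; linarith
  have il0 : 0 < 1 / l := by positivity
  have d1 : |D.s1 (D.V x) / l| ≤ 2 * D.M := by
    rw [abs_div, abs_of_pos hl, div_eq_mul_one_div]
    nlinarith [abs_nonneg (D.s1 (D.V x))]
  have il2 : 1 / l ^ 2 ≤ 4 := by
    rw [div_le_iff₀ (by positivity)]; nlinarith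
  have il20 : 0 < 1 / l ^ 2 := by positivity
  have d2 : |D.s2 (D.V x) / l ^ 2| ≤ 4 * D.M := by
    rw [abs_div, abs_of_pos (show (0:ℝ) < l ^ 2 by positivity), div_eq_mul_one_div]
    nlinarith [abs_nonneg (D.s2 (D.V x))]
  have il3 : 1 / l ^ 3 ≤ 8 := by
    rw [div_le_iff₀ (by positivity)]
    have : (1 / 2 : ℝ) ^ 3 ≤ l ^ 3 := pow_le_pow_left₀ (by norm_num) l0.le 3
    linarith
  have il30 : 0 < 1 / l ^ 3 := by positivity
  have d3 : |D.s3 (D.V x) / l ^ 3| ≤ 8 * D.M := by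
    rw [abs_div, abs_of_pos (show (0:ℝ) < l ^ 3 by positivity), div_eq_mul_one_div]
    nlinarith [abs_nonneg (D.s3 (D.V x))]
  have e1 : |y1 / D.T| ≤ -E := by
    rw [abs_div, abs_of_pos hT, abs_of_nonneg a1, div_le_iff₀ hT]
    nlinarith
  have hT2 : 1 ≤ D.T ^ 2 := one_le_pow₀ hT1
  have hT3 : 1 ≤ D.T ^ 3 := one_le_pow₀ hT1
  have e2 : |y2 / D.T ^ 2| ≤ 7 * -E := by
    rw [abs_div, abs_of_pos (by linarith : 0 < D.T ^ 2), div_le_iff₀ (by linarith)]
    nlinarith
  have e3 : |y3 / D.T ^ 3| ≤ 211 * -E := by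
    rw [abs_div, abs_of_pos (by linarith : 0 < D.T ^ 3), div_le_iff₀ (by linarith)]
    nlinarith
  have f1 : |1 - χ| ≤ 1 := by rw [abs_le]; constructor <;> linarith
  have K : (62 * D.M + 211) * -E ≤ D.η / 10 ^ 12 := by
    have hp : 0 < 62 * D.M + 211 := by linarith
    calc (62 * D.M + 211) * -E ≤ (62 * D.M + 211) * (D.η / (10 ^ 12 * (62 * D.M + 211))) :=
          mul_le_mul_of_nonneg_left hE hp.le
      _ = D.η / 10 ^ 12 := by field_simp
  have hmul : ∀ {a b A B : ℝ}, |a| ≤ A → |b| ≤ B → |a * b| ≤ A * B := fun {a b A B} h1 h2 => by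
    rw [abs_mul]
    exact mul_le_mul h1 h2 (abs_nonneg _) ((abs_nonneg _).trans h1)
  have hEE : |E| ≤ -E := by rw [abs_of_nonpos (by linarith)]
  have ME : 0 ≤ D.M * -E := mul_nonneg hM E0
  refine ⟨?_, ?_, ?_⟩
  · have p1 := hmul (a := -(D.s1 (D.V x) / l)) (A := 2 * D.M) (by rw [abs_neg]; exact d1) hEE
    have p2 := hmul f1 e1
    calc |-(D.s1 (D.V x) / l) * E + (1 - χ) * (y1 / D.T)| ≤ _ := abs_add_le _ _
      _ ≤ 2 * D.M * -E + 1 * -E := add_le_add p1 p2
      _ = 2 * (D.M * -E) + -E := by ring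
      _ ≤ 62 * (D.M * -E) + 211 * -E := by linarith
      _ = (62 * D.M + 211) * -E := by ring
      _ ≤ _ := K
  · have p1 := hmul (a := -(D.s2 (D.V x) / l ^ 2)) (A := 4 * D.M) (by rw [abs_neg]; exact d2) hEE
    have p2 := hmul (a := 2 * (D.s1 (D.V x) / l)) (A := 4 * D.M)
      (by rw [abs_mul, abs_of_pos (by norm_num : (0:ℝ) < 2)]; linarith) e1
    have p3 := hmul f1 e2
    calc |-(D.s2 (D.V x) / l ^ 2) * E - 2 * (D.s1 (D.V x) / l) * (y1 / D.T)
        + (1 - χ) * (y2 / D.T ^ 2)|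
        ≤ |-(D.s2 (D.V x) / l ^ 2) * E - 2 * (D.s1 (D.V x) / l) * (y1 / D.T)|
          + |(1 - χ) * (y2 / D.T ^ 2)| := abs_add_le _ _
      _ ≤ (|-(D.s2 (D.V x) / l ^ 2) * E| + |2 * (D.s1 (D.V x) / l) * (y1 / D.T)|)
          + |(1 - χ) * (y2 / D.T ^ 2)| := by gcongr; exact abs_sub _ _
      _ ≤ (4 * D.M * -E + 4 * D.M * -E) + 1 * (7 * -E) := add_le_add (add_le_add p1 p2) p3
      _ = 8 * (D.M * -E) + 7 * -E := by ring
      _ ≤ 62 * (D.M * -E) + 211 * -E := by linarith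
      _ = (62 * D.M + 211) * -E := by ring
      _ ≤ _ := K
  · have p1 := hmul (a := -(D.s3 (D.V x) / l ^ 3)) (A := 8 * D.M) (by rw [abs_neg]; exact d3) hEE
    have p2 := hmul (a := 3 * (D.s2 (D.V x) / l ^ 2)) (A := 12 * D.M)
      (by rw [abs_mul, abs_of_pos (by norm_num : (0:ℝ) < 3)]; linarith) e1
    have p3 := hmul (a := 3 * (D.s1 (D.V x) / l)) (A := 6 * D.M)
      (by rw [abs_mul, abs_of_pos (by norm_num : (0:ℝ) < 3)]; linarith) e2
    have p4 := hmul f1 e3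
    calc |-(D.s3 (D.V x) / l ^ 3) * E - 3 * (D.s2 (D.V x) / l ^ 2) * (y1 / D.T)
        - 3 * (D.s1 (D.V x) / l) * (y2 / D.T ^ 2) + (1 - χ) * (y3 / D.T ^ 3)|
        ≤ |-(D.s3 (D.V x) / l ^ 3) * E - 3 * (D.s2 (D.V x) / l ^ 2) * (y1 / D.T)
        - 3 * (D.s1 (D.V x) / l) * (y2 / D.T ^ 2)| + |(1 - χ) * (y3 / D.T ^ 3)| := abs_add_le _ _
      _ ≤ (|-(D.s3 (D.V x) / l ^ 3) * E - 3 * (D.s2 (D.V x) / l ^ 2) * (y1 / D.T)|
        + |3 * (D.s1 (D.V x) / l) * (y2 / D.T ^ 2)|) + |(1 - χ) * (y3 / D.T ^ 3)| := by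
          gcongr; exact abs_sub _ _
      _ ≤ ((|-(D.s3 (D.V x) / l ^ 3) * E| + |3 * (D.s2 (D.V x) / l ^ 2) * (y1 / D.T)|)
        + |3 * (D.s1 (D.V x) / l) * (y2 / D.T ^ 2)|) + |(1 - χ) * (y3 / D.T ^ 3)| := by
          gcongr; exact abs_sub _ _
      _ ≤ ((8 * D.M * -E + 12 * D.M * -E) + 6 * D.M * (7 * -E)) + 1 * (211 * -E) :=
          add_le_add (add_le_add (add_le_add p1 p2) p3) p4
      _ = 62 * (D.M * -E) + 211 * -E := by ring
      _ = (62 * D.M + 211) * -E := by ring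
      _ ≤ _ := K

/-- below radius `3` -/
theorem inner {x : ℝ} (hx : x ≤ Real.log 3) : D.G x = Real.log D.κ ∧ D.G1 x = 0 := by
  have hT := D.T_pos
  have hl : x < D.lam := by
    unfold lam
    have := log2_bounds.1
    have h2 : 0 < D.T * D.u1 := mul_pos hT (by linarith [D.u1_ge])
    linarith
  obtain ⟨a, b, -, -⟩ := D.caseA hl
  have hU : D.U x ≤ 0 := by
    unfold U; exact div_nonpos_of_nonpos_of_nonneg (by linarith) hT.le
  rw [a, b, el_zero hU, D.one_add_C, Real.log_inv, neg_neg]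
  refine ⟨rfl, ?_⟩
  unfold g1; rw [t1_zero hU]; simp

/-- beyond radius `L/4` -/
theorem outer {x : ℝ} (hx : D.lam + Real.log 2 ≤ x) : D.G x = 0 ∧ D.G1 x = 0 := by
  have hV : 1 ≤ D.V x := by
    unfold V; rw [le_div_iff₀ (by linarith [log2_bounds.1])]; linarith
  unfold G G1
  rw [D.s1_zero _ hV, Real.smoothTransition.one_of_one_le hV]
  simp

/-! ## the profiles -/

def prof : Prof where
  F := fun R => Real.exp (D.G (Real.log R))
  β := fun R => Real.exp (16 * (Real.log D.κ - D.G (Real.log R)))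
  P := fun R => 16 * D.G1 (Real.log R)
  n := fun R => Real.exp (D.G (Real.log R)) * (16 * D.G1 (Real.log R)) / 8
  c := fun R => 16 * (16 * D.G1 (Real.log R))

theorem dl_comp {g g' : ℝ → ℝ} (h : ∀ x, HasDerivAt g (g' x) x) {R : ℝ} (hR : 0 < R) :
    dl (fun R => g (Real.log R)) R = g' (Real.log R) := by
  unfold dl
  have h1 := (h (Real.log R)).comp R (Real.hasDerivAt_log hR.ne')
  have h2 : deriv (fun R => g (Real.log R)) R = g' (Real.log R) * R⁻¹ := h1.deriv
  rw [h2]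
  field_simp

theorem dl_congr {f g : ℝ → ℝ} (h : ∀ R, 0 < R → f R = g R) {R : ℝ} (hR : 0 < R) :
    dl f R = dl g R := by
  unfold dl
  have : f =ᶠ[𝓝 R] g := by
    filter_upwards [Ioi_mem_nhds hR] with r hr using h r hr
  rw [this.deriv_eq]

theorem small_G1 (x : ℝ) : 16 * D.G1 x ≤ 1 / 128 := by
  rcases lt_or_ge x D.lam with h | h
  · obtain ⟨-, b, -, -⟩ := D.caseA h
    rw [b]
    obtain ⟨a1, a2, -⟩ := g_bounds D.C_pos (D.U x)
    have w1 := ww_lt D.C_pos (D.U x)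
    have : g1 D.C (D.U x) / D.T ≤ 1 / 10 ^ 10 := by
      rw [D.T_eq]; gcongr; linarith
    norm_num at this ⊢
    linarith
  · obtain ⟨a, -, -⟩ := D.caseB (x := x) (by linarith [log2_bounds.1])
    have := (abs_le.1 a).2
    have h1 := D.η1
    have : D.η / 10 ^ 12 ≤ 1 / 10 ^ 12 := by gcongr
    norm_num at this ⊢
    linarith

theorem logOn : ContDiffOn ℝ ∞ Real.log (Ioi (0:ℝ)) := by
  intro x hx
  exact (Real.contDiffAt_log.2 (ne_of_gt hx)).contDiffWithinAt

theorem ok : D.prof.Ok where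
  F_smooth := (D.contDiff_G.exp).comp_contDiffOn logOn
  β_smooth := (contDiff_const.mul (contDiff_const.sub D.contDiff_G)).exp.comp_contDiffOn logOn
  P_smooth := (contDiff_const.mul D.contDiff_G1).comp_contDiffOn logOn
  n_smooth := ((D.contDiff_G.exp.mul (contDiff_const.mul D.contDiff_G1)).div_const 8).comp_contDiffOn
    logOn
  c_smooth := (contDiff_const.mul (contDiff_const.mul D.contDiff_G1)).comp_contDiffOn logOn
  F_pos := fun R _ => Real.exp_pos _
  β_pos := fun R _ => Real.exp_pos _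
  β_deriv := fun R hR => by
    have h1 := (D.hasDerivAt_G (Real.log R)).comp R (Real.hasDerivAt_log hR.ne')
    have h2 := ((h1.const_sub (Real.log D.κ)).const_mul 16).exp
    refine h2.congr_deriv ?_
    simp only [prof, Function.comp_apply]
    field_simp
  n_nonneg := fun R _ => by
    have := D.G1_nonneg (Real.log R)
    simp only [prof]
    positivity
  n_le := fun R _ => by
    have h0 := D.G1_nonneg (Real.log R)
    have h1 := D.small_G1 (Real.log R)
    have h2 : Real.exp (D.G (Real.log R)) ≤ 1 := by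
      rw [Real.exp_le_one_iff]; exact D.G_nonpos _
    have h3 := Real.exp_pos (D.G (Real.log R))
    simp only [prof]
    nlinarith
  c_nonneg := fun R _ => by
    have := D.G1_nonneg (Real.log R)
    simp only [prof]
    positivity
  c_le := fun R _ => by
    have h1 := D.small_G1 (Real.log R)
    simp only [prof]
    linarith

theorem expκ : Real.exp (Real.log D.κ) = D.κ := Real.exp_log D.κ0

theorem exp16 : Real.exp (16 * Real.log D.κ) = D.κ ^ 16 := by
  rw [mul_comm, show Real.log D.κ * 16 = ((16:ℕ):ℝ) * Real.log D.κ by push_cast; ring,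
    Real.exp_nat_mul, Real.exp_log D.κ0]

theorem hyp (δ : ℝ) (X : E4) (hX : X ≠ 0) (hL : ‖X‖ ≤ D.L) :
    (D.prof.np δ X).hyp (D.η * ‖X‖ ^ 2 / D.L ^ 2) := by
  have hR : 0 < ‖X‖ := norm_pos_iff.2 hX
  set R := ‖X‖ with hRdef
  set x := Real.log R with hx
  set μ := D.η * R ^ 2 / D.L ^ 2 with hμ
  have hμ0 : 0 < μ := by
    have := D.η0; have := D.L_pos; positivity
  have eP1 : dl D.prof.P R = 16 * D.G2 x :=
    dl_comp (g := fun x => 16 * D.G1 x) (g' := fun x => 16 * D.G2 x)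
      (fun x => (D.hasDerivAt_G1 x).const_mul 16) hR
  have eP1' : ∀ r, 0 < r → dl D.prof.P r = 16 * D.G2 (Real.log r) := fun r hr =>
    dl_comp (g := fun x => 16 * D.G1 x) (g' := fun x => 16 * D.G2 x)
      (fun x => (D.hasDerivAt_G1 x).const_mul 16) hr
  have eP2 : dl (dl D.prof.P) R = 16 * D.G3 x := by
    rw [dl_congr eP1' hR]
    exact dl_comp (g := fun x => 16 * D.G2 x) (g' := fun x => 16 * D.G3 x)
      (fun x => (D.hasDerivAt_G2 x).const_mul 16) hR
  have eF : dl D.prof.F R = Real.exp (D.G x) * D.G1 x :=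
    dl_comp (g := fun x => Real.exp (D.G x)) (g' := fun x => Real.exp (D.G x) * D.G1 x)
      (fun x => (D.hasDerivAt_G x).exp) hR
  have en : dl D.prof.n R = (Real.exp (D.G x) * (16 * D.G2 x)
      + Real.exp (D.G x) * D.G1 x * (16 * D.G1 x)) / 8 :=
    dl_comp (g := fun x => Real.exp (D.G x) * (16 * D.G1 x) / 8)
      (g' := fun x => (Real.exp (D.G x) * (16 * D.G2 x)
      + Real.exp (D.G x) * D.G1 x * (16 * D.G1 x)) / 8)
      (fun x => ((((D.hasDerivAt_G x).exp).mul ((D.hasDerivAt_G1 x).const_mul 16)).div_const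
        8).congr_deriv (by ring)) hR
  have ec : dl D.prof.c R = 16 * (16 * D.G2 x) :=
    dl_comp (g := fun x => 16 * (16 * D.G1 x)) (g' := fun x => 16 * (16 * D.G2 x))
      (fun x => ((D.hasDerivAt_G1 x).const_mul 16).const_mul 16) hR
  have ec' : ∀ r, 0 < r → dl D.prof.c r = 16 * (16 * D.G2 (Real.log r)) := fun r hr =>
    dl_comp (g := fun x => 16 * (16 * D.G1 x)) (g' := fun x => 16 * (16 * D.G2 x))
      (fun x => ((D.hasDerivAt_G1 x).const_mul 16).const_mul 16) hr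
  have ec2 : dl (dl D.prof.c) R = 16 * (16 * D.G3 x) := by
    rw [dl_congr ec' hR]
    exact dl_comp (g := fun x => 16 * (16 * D.G2 x)) (g' := fun x => 16 * (16 * D.G3 x))
      (fun x => ((D.hasDerivAt_G2 x).const_mul 16).const_mul 16) hR
  have hG := D.G_nonpos x
  have hG' := D.G_ge x
  have hG1 := D.G1_nonneg x
  have hF0 := Real.exp_pos (D.G x)
  have hF1 : Real.exp (D.G x) ≤ 1 := by rw [Real.exp_le_one_iff]; exact hG
  -- the four inequalities
  have key : 16 * D.G1 x ≤ (1 - Real.exp (D.G x) + μ) / 10 ^ 6 ∧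
      |16 * D.G2 x| ≤ (1 - Real.exp (D.G x) + μ) / 10 ^ 6 ∧
      |16 * D.G3 x| ≤ (1 - Real.exp (D.G x) + μ) / 10 ^ 6 ∧
      -(16 * D.G1 x) / 1024 - μ / 10 ^ 6 ≤ 16 * D.G2 x ∧
      -(16 * D.G1 x + |16 * D.G2 x|) / 1024 - μ / 10 ^ 6 ≤ 16 * D.G3 x := by
    rcases lt_or_ge x D.lam with h | h
    · obtain ⟨a, b, c, d⟩ := D.caseA h
      have hC := D.C_pos
      obtain ⟨a1, a2, a3, a4, a5, a6⟩ := g_bounds hC (D.U x)
      have w0 := ww_pos hC (D.U x)
      have w1 := ww_lt hC (D.U x)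
      have hFw : 1 - Real.exp (D.G x) = ww D.C (D.U x) := by
        rw [a, exp_el hC]; ring
      rw [hFw, b, c, d, D.T_eq]
      set w := ww D.C (D.U x)
      set y1 := g1 D.C (D.U x)
      set y2 := g2 D.C (D.U x)
      set y3 := g3 D.C (D.U x)
      rw [abs_le] at a3 a4
      have hμ' := hμ0.le
      refine ⟨?_, ?_, ?_, ?_, ?_⟩
      · norm_num; linarith
      · rw [abs_le]; norm_num; constructor <;> linarith
      · rw [abs_le]; norm_num; constructor <;> linarith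
      · norm_num; linarith
      · have h0 := abs_nonneg (16 * (y2 / (10 ^ 10) ^ 2))
        have : -(16 * (y1 / 10 ^ 10)) / 1024 ≤ 16 * (y3 / (10 ^ 10) ^ 3) := by
          norm_num; linarith
        have h3 : 0 ≤ μ / 10 ^ 6 := by positivity
        linarith
    · have hB := D.caseB (x := x) (by linarith [log2_bounds.1])
      obtain ⟨a, b, c⟩ := hB
      have hμ1 : D.η / 256 ≤ μ := by
        have hlog : Real.log (D.L / 16) ≤ x := by
          rw [Real.log_div D.L_pos.ne' (by norm_num), D.log_L,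
            show (16:ℝ) = 2 ^ 4 by norm_num, Real.log_pow]
          push_cast
          linarith [log2_bounds.1]
        have hLR : D.L / 16 ≤ R := by
          rw [hx] at hlog
          exact (Real.log_le_log_iff (by linarith [D.L_pos]) hR).1 hlog
        have hL0 := D.L_pos
        rw [hμ, div_le_div_iff₀ (by norm_num) (by positivity)]
        have : D.L ^ 2 ≤ 256 * R ^ 2 := by nlinarith
        nlinarith [D.η0]
      have hη := D.η0
      have k1 : 16 * (D.η / 10 ^ 12) ≤ μ / 10 ^ 6 := by norm_num; linarith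
      have e1 : |16 * D.G1 x| ≤ μ / 10 ^ 6 := by
        rw [abs_mul, abs_of_pos (by norm_num : (0:ℝ) < 16)]; linarith
      have e2 : |16 * D.G2 x| ≤ μ / 10 ^ 6 := by
        rw [abs_mul, abs_of_pos (by norm_num : (0:ℝ) < 16)]; linarith
      have e3 : |16 * D.G3 x| ≤ μ / 10 ^ 6 := by
        rw [abs_mul, abs_of_pos (by norm_num : (0:ℝ) < 16)]; linarith
      have e4 : μ / 10 ^ 6 ≤ (1 - Real.exp (D.G x) + μ) / 10 ^ 6 := by gcongr; linarith
      refine ⟨(le_abs_self _).trans (e1.trans e4), e2.trans e4, e3.trans e4, ?_, ?_⟩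
      · have := (abs_le.1 e2).1
        linarith
      · have := (abs_le.1 e3).1
        have h2 := abs_nonneg (16 * D.G2 x)
        linarith
  obtain ⟨k1, k2, k3, k4, k5⟩ := key
  simp only [NP.hyp, Prof.np, ← hRdef, eP1, eP2, eF, en, ec, ec2]
  simp only [prof, ← hx]
  refine ⟨hF0, hF1, Real.exp_pos _, ?_, by positivity, k1, k2, k3, k4, k5, by positivity, ?_,
    trivial, trivial, trivial, trivial, trivial⟩
  · rw [Real.exp_le_one_iff]; linarith
  · have : 0 ≤ μ / 10 ^ 6 := by positivity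
    nlinarith

end PD

theorem prof : ProfStmt := by
  intro κ h0 h1
  refine ⟨κ ^ 16, by positivity, pow_lt_one₀ h0.le h1 (by norm_num), fun η hη hη1 => ?_⟩
  obtain ⟨M, s1, s2, s3, hM, hs, hs1, hs2, bd, hn, hz, hz1⟩ := cut_exists
  have hC : 0 < 1 / κ - 1 := by
    have : 1 < 1 / κ := by rw [lt_div_iff₀ h0]; linarith
    linarith
  obtain ⟨u1, hu1, hsm⟩ := el_small hC (ε := η / (10 ^ 12 * (62 * M + 211))) (by positivity)
  let D : PD := ⟨κ, η, 10 ^ 10, u1, M, s1, s2, s3, h0, h1, hη, hη1, rfl, hM, hu1, hs, hs1, hs2, bd,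
    hn, hz, hz1, hsm⟩
  refine ⟨D.L, D.L_ge, D.prof, D.ok, fun R hR => ⟨?_, ?_⟩, fun R hR => ⟨?_, ?_⟩,
    fun R hR hR3 => ?_, fun R hR => ?_, D.hyp⟩
  · rw [← D.exp16]
    exact Real.exp_le_exp.2 (by linarith [D.G_nonpos (Real.log R)])
  · change Real.exp _ ≤ 1
    rw [Real.exp_le_one_iff]
    linarith [D.G_ge (Real.log R)]
  · change D.κ ≤ Real.exp _
    rw [← Real.log_le_iff_le_exp h0]
    exact D.G_ge _
  · change Real.exp _ ≤ 1
    rw [Real.exp_le_one_iff]
    exact D.G_nonpos _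
  · obtain ⟨a, b⟩ := D.inner (Real.log_le_log hR hR3)
    simp only [PD.prof, a, b]
    refine ⟨D.expκ, by simp, by simp, by simp, by simp⟩
  · have hx : D.lam + Real.log 2 ≤ Real.log R := by
      have : Real.log (D.L / 4) ≤ Real.log R := Real.log_le_log (by linarith [D.L_pos]) hR
      rw [Real.log_div D.L_pos.ne' (by norm_num), D.log_L, show (4:ℝ) = 2 ^ 2 by norm_num,
        Real.log_pow] at this
      push_cast at this
      linarith
    obtain ⟨a, b⟩ := D.outer hx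
    simp only [PD.prof, a, b]
    refine ⟨by simp, ?_, by simp, by simp, by simp⟩
    rw [sub_zero]; exact D.exp16

end Pool.Agent.RLim.H74
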