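import Pool.Agent.Helper1_RL.Stmts
import Pool.Agent.Helper19_RLB.Dif

noncomputable section

open scoped ContDiff Topology ENNReal RealInnerProductSpace
set_option maxSynthPendingDepth 3
open Set Metric

namespace Pool.Agent.RLim.H74

open Pool.Agent.RF Pool.Agent.RLim

theorem n4 (x : E4) : ‖x‖ ^ 2 = x 0 ^ 2 + x 1 ^ 2 + x 2 ^ 2 + x 3 ^ 2 := by
  rw [EuclideanSpace.norm_sq_eq, Fin.sum_univ_four]
  simp [sq_abs]

/-- quaternion multiplication by `X` -/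
def qm (X Y : E4) : E4 := WithLp.toLp 2
  ![X 0 * Y 0 - X 1 * Y 1 - X 2 * Y 2 - X 3 * Y 3, X 0 * Y 1 + X 1 * Y 0 - X 2 * Y 3 + X 3 * Y 2,
    X 2 * Y 0 - X 3 * Y 1 + X 0 * Y 2 + X 1 * Y 3, X 2 * Y 1 + X 3 * Y 0 + X 0 * Y 3 - X 1 * Y 2]

def qml (X : E4) : E4 →ₗ[ℝ] E4 where
  toFun Y := ‖X‖⁻¹ • qm X Y
  map_add' Y Z := by
    rw [← smul_add]
    congr 1
    ext i
    fin_cases i <;> simp [qm] <;> ring
  map_smul' a Y := by
    rw [RingHom.id_apply, smul_comm a]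
    congr 1
    ext i
    fin_cases i <;> simp [qm] <;> ring

theorem norm_qml {X : E4} (hX : X ≠ 0) (Y : E4) : ‖qml X Y‖ = ‖Y‖ := by
  have h0 : ‖X‖ ≠ 0 := norm_ne_zero_iff.2 hX
  have h : ‖qm X Y‖ ^ 2 = (‖X‖ * ‖Y‖) ^ 2 := by
    rw [mul_pow, n4, n4 X, n4 Y]
    simp [qm]
    ring
  have h1 : ‖qm X Y‖ = ‖X‖ * ‖Y‖ := by
    rw [← abs_of_nonneg (norm_nonneg (qm X Y)), ← abs_of_nonneg (by positivity : 0 ≤ ‖X‖ * ‖Y‖)]
    exact (sq_eq_sq_iff_abs_eq_abs _ _).1 h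
  change ‖‖X‖⁻¹ • qm X Y‖ = _
  rw [norm_smul, h1, norm_inv, norm_norm]
  field_simp

def qA {X : E4} (hX : X ≠ 0) : E4 ≃ₗᵢ[ℝ] E4 :=
  (⟨qml X, norm_qml hX⟩ : E4 →ₗᵢ[ℝ] E4).toLinearIsometryEquiv rfl

theorem qA_apply {X : E4} (hX : X ≠ 0) (Y : E4) : qA hX Y = ‖X‖⁻¹ • qm X Y := rfl

theorem qA_base {X : E4} (hX : X ≠ 0) : qA hX (Xb ‖X‖) = X := by
  have h0 : ‖X‖ ≠ 0 := norm_ne_zero_iff.2 hX
  rw [qA_apply]
  ext i
  fin_cases i <;> simp [qm, Xb] <;> field_simp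

theorem qA_JJ {X : E4} (hX : X ≠ 0) (Y : E4) : qA hX (JJ Y) = JJ (qA hX Y) := by
  rw [qA_apply, qA_apply]
  have h : JJ (‖X‖⁻¹ • qm X Y) = ‖X‖⁻¹ • JJ (qm X Y) := by
    ext i
    fin_cases i <;> simp [JJ]
  rw [h]
  congr 1
  ext i
  fin_cases i <;> simp [qm, JJ] <;> ring

theorem u2_inv (F B : ℝ → ℝ) {X : E4} (hX : X ≠ 0) (Y V W : E4) :
    u2 F B (qA hX Y) (qA hX V) (qA hX W) = u2 F B Y V W := by
  unfold u2
  rw [gen_apply, gen_apply, ← qA_JJ]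
  simp only [LinearIsometryEquiv.norm_map, LinearIsometryEquiv.inner_map_map, zero_mul]

theorem u2e (hM : U2MetricStmt) : U2EquivStmt := by
  intro F B hFB X hX
  refine ⟨qA hX, qA_base hX, fun Y V W => u2_inv F B hX Y V W, fun V W => ?_⟩
  have hm := hM F B hFB
  have hR : 0 < ‖X‖ := norm_pos_iff.2 hX
  have hXb : Xb ‖X‖ ≠ 0 := by
    intro h
    have := congrArg (fun v : E4 => v 0) h
    simp [Xb] at this
    exact hX this
  have hf : ∀ y, fderiv ℝ (qA hX) y = (qA hX : E4 →L[ℝ] E4) := fun y =>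
    (qA hX).toContinuousLinearEquiv.fderiv
  obtain ⟨-, h2⟩ := H19.dif.1 (u2 F B) (qA hX) (Om (Fin 4)) (Om (Fin 4)) hm hm.isOpen
    (qA hX).contDiff.contDiffOn (fun y hy => by
      simp only [Om, mem_ofPred_eq] at hy ⊢
      exact fun h => hy ((qA hX).map_eq_zero_iff.1 h))
    (fun y _ => by rw [hf]; exact ⟨(qA hX).toContinuousLinearEquiv, rfl⟩)
  have h3 := h2 (Xb ‖X‖) hXb V W
  have h4 : pullb (u2 F B) (qA hX) = u2 F B := by
    funext y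
    ext V W
    simp only [pullb, hf]
    exact u2_inv F B hX y V W
  rw [h4, hf, qA_base hX] at h3
  exact h3.symm

end Pool.Agent.RLim.H74
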